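import Pool.Agent.Helper81_TOR.Ioh

/-! Module KLL of the T2-STAB block -/

set_option autoImplicit false

namespace Pool.Agent.TST.H81

open Pointwise Set CategoryTheory Rep Pool.Agent.TOR Pool.Agent.TOR.H58 Pool.Agent.TST

/-! ### the class of a cut -/

section cl

variable {F : Type} [Group F]

theorem ind_smul (E : Set F) (g y : F) : ind (g • E) y = ind E (g⁻¹ * y) := by
  unfold ind
  rw [Set.mem_smul_set_iff_inv_smul_mem, smul_eq_mul]

omit [Group F] in
theorem ind_pos {E : Set F} {y : F} (h : y ∈ E) : ind E y = 1 := by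
  unfold ind
  rw [if_pos h]

omit [Group F] in
theorem ind_neg {E : Set F} {y : F} (h : y ∉ E) : ind E y = 0 := by
  unfold ind
  rw [if_neg h]

omit [Group F] in
theorem ind_congr {E : Set F} {y y' : F} (h : y ∈ E ↔ y' ∈ E) : ind E y = ind E y' := by
  by_cases h1 : y ∈ E
  · rw [ind_pos h1, ind_pos (h.1 h1)]
  · rw [ind_neg h1, ind_neg (fun h2 => h1 (h.2 h2))]

omit [Group F] in
theorem ind_compl (E : Set F) (y : F) : ind Eᶜ y = 1 - ind E y := by
  by_cases h : y ∈ E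
  · rw [ind_pos h, ind_neg (show y ∉ Eᶜ from fun h' => h' h)]; rfl
  · rw [ind_neg h, ind_pos (show y ∈ Eᶜ from h)]; rfl

theorem cl_smul (E : Set F) (g x : F) : cl (g • E) x = cl E x := by
  unfold cl
  have h : ∀ y, ind (g • E) (y * x) - ind (g • E) y =
      (fun y => ind E (y * x) - ind E y) (Equiv.mulLeft g⁻¹ y) := by
    intro y
    rw [ind_smul, ind_smul]
    change _ = ind E (g⁻¹ * y * x) - ind E (g⁻¹ * y)
    rw [mul_assoc]
  rw [finsum_congr h]
  exact finsum_comp_equiv (Equiv.mulLeft g⁻¹) (f := fun y => ind E (y * x) - ind E y)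

theorem cl_compl (E : Set F) (x : F) : cl Eᶜ x = - cl E x := by
  unfold cl
  rw [← finsum_neg_distrib]
  refine finsum_congr fun y => ?_
  rw [ind_compl, ind_compl]
  ring

theorem ind_supp (E : Set F) (x : F) :
    Function.support (fun y => ind E (y * x) - ind E y) ⊆ {y : F | ¬ (y ∈ E ↔ y * x ∈ E)} := by
  intro y hy
  rw [Function.mem_support] at hy
  intro h
  apply hy
  unfold ind
  by_cases h1 : y ∈ E
  · rw [if_pos h1, if_pos (h.1 h1)]; rfl
  · rw [if_neg h1, if_neg (fun h2 => h1 (h.2 h2))]; rfl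

theorem cl_mul {E : Set F} (hE : AI E) (x x' : F) : cl E (x * x') = cl E x + cl E x' := by
  have h1 : cl E x' = ∑ᶠ y : F, (ind E (y * x * x') - ind E (y * x)) := by
    unfold cl
    exact (finsum_comp_equiv (Equiv.mulRight x)
      (f := fun y => ind E (y * x') - ind E y)).symm
  rw [h1]
  unfold cl
  rw [← finsum_add_distrib]
  · refine finsum_congr fun y => ?_
    rw [← mul_assoc]
    ring
  · exact (hE x).subset (ind_supp E x)
  · have h2 : ((fun y => y * x) ⁻¹' {y : F | ¬ (y ∈ E ↔ y * x' ∈ E)}).Finite :=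
      (hE x').preimage (fun a _ b _ h => mul_right_cancel h)
    refine h2.subset ?_
    intro y hy
    exact ind_supp E x' hy

/-- the class as a homomorphism -/
noncomputable def clH {E : Set F} (hE : AI E) : F →* Multiplicative ℤ :=
  MonoidHom.mk' (fun x => Multiplicative.ofAdd (cl E x)) fun x x' => by
    rw [cl_mul hE]; rfl

theorem clH_apply {E : Set F} (hE : AI E) (x : F) : clH hE x = Multiplicative.ofAdd (cl E x) := rfl

theorem cl_rst {E : Set F} {a : F} (ha : a ∈ RSt E) : cl E a = 0 := by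
  unfold cl
  refine finsum_eq_zero_of_forall_eq_zero fun y => ?_
  rw [ind_congr (ha y), sub_self]

theorem ai_smul {E : Set F} (hE : AI E) (g : F) : AI (g • E) := by
  intro x
  have h2 : ((fun y => g⁻¹ * y) ⁻¹' {y : F | ¬ (y ∈ E ↔ y * x ∈ E)}).Finite :=
    (hE x).preimage (fun a _ b _ h => mul_left_cancel h)
  refine h2.subset ?_
  intro y hy
  change ¬ (g⁻¹ * y ∈ E ↔ g⁻¹ * y * x ∈ E)
  change ¬ (y ∈ g • E ↔ y * x ∈ g • E) at hy
  rw [Set.mem_smul_set_iff_inv_smul_mem, Set.mem_smul_set_iff_inv_smul_mem, smul_eq_mul,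
    smul_eq_mul, ← mul_assoc] at hy
  exact hy

theorem ai_compl {E : Set F} (hE : AI E) : AI Eᶜ := by
  intro x
  refine (hE x).subset ?_
  intro y hy h
  exact hy (not_iff_not.2 h)

theorem cl_leg {κ : Type} {E : κ → Set F} {D : Set F} {s : F} (h : IsLeg E D s) : cl D s = 1 := by
  unfold cl
  rw [finsum_eq_single _ (1 : F)]
  · rw [one_mul, ind_pos h.hs, ind_neg h.one]; rfl
  · intro y hy
    have h1 : y ∈ D ↔ y * s ∈ D := by
      by_contra h2
      have h3 := h.only y⁻¹ (by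
        rw [Set.mem_smul_set_iff_inv_smul_mem, Set.mem_smul_set_iff_inv_smul_mem, inv_inv,
          smul_eq_mul, smul_eq_mul, mul_one]
        exact h2)
      exact hy (inv_eq_one.1 h3)
    rw [ind_congr h1, sub_self]

end cl

/-! ### the elements lam -/

section lam

variable {ι δ : Type}

open Classical in
/-- t_d ↦ a t_d, all other letters fixed -/
noncomputable def lam (d : δ) (a : FreeGroup ι) : MulAut (FreeGroup (ι ⊕ δ)) :=
  psi 1 (fun e => if e = d then a else 1) (fun _ => 1)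

theorem lam_jn (d : δ) (a x : FreeGroup ι) : lam d a (jn δ x) = jn δ x := psi_jn _ _ _ _

open Classical in
theorem lam_t (d e : δ) (a : FreeGroup ι) : lam d a (FreeGroup.of (Sum.inr e)) =
    jn δ (if e = d then a else 1) * FreeGroup.of (Sum.inr e) := by
  unfold lam
  rw [psi_t, map_one, mul_one]

theorem lam_mul (d : δ) (a a' : FreeGroup ι) :
    (lam d a * lam d a' : MulAut (FreeGroup (ι ⊕ δ))) = lam d (a' * a) := by
  classical
  unfold lam
  rw [psi_mul]
  congr 1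
  funext e
  by_cases h : e = d
  · rw [if_pos h, if_pos h, if_pos h]; rfl
  · rw [if_neg h, if_neg h, if_neg h, map_one, mul_one]

theorem lam_one (d : δ) : (lam d (1 : FreeGroup ι) : MulAut (FreeGroup (ι ⊕ δ))) = 1 := by
  have h := lam_mul (δ := δ) d (1 : FreeGroup ι) 1
  rw [mul_one] at h
  exact mul_eq_left.1 h

theorem lam_inv (d : δ) (a : FreeGroup ι) :
    (lam d a : MulAut (FreeGroup (ι ⊕ δ)))⁻¹ = lam d a⁻¹ := by
  rw [inv_eq_iff_mul_eq_one, lam_mul, inv_mul_cancel, lam_one]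

theorem lam_comm (d d' : δ) (hd : d ≠ d') (a a' : FreeGroup ι) :
    (lam d a * lam d' a' : MulAut (FreeGroup (ι ⊕ δ))) = lam d' a' * lam d a := by
  classical
  unfold lam
  rw [psi_mul, psi_mul]
  congr 1
  funext e
  change (if e = d' then a' else 1) * (if e = d then a else 1) =
    (if e = d then a else 1) * (if e = d' then a' else 1)
  by_cases h : e = d
  · have h' : e ≠ d' := fun h' => hd (h.symm.trans h')
    rw [if_neg h', one_mul, mul_one]
  · rw [if_neg h, one_mul, mul_one]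

/-- conjugation of lam by ι_J(φ) -/
theorem iot_lam {κ : Type} {z : ι} {E : κ → Set (FreeGroup ι)} (γ : GS z E → FreeGroup ι)
    (J : Finset δ) (φ : GS z E) (d : δ) (hd : d ∈ J) (a : FreeGroup ι) :
    iot γ J φ * lam d a =
      lam d ((γ φ)⁻¹ * ((φ : Gp z) : MulAut (FreeGroup ι)) a * γ φ) * iot γ J φ := by
  classical
  unfold iot lam
  rw [psi_mul, psi_mul, mul_one, one_mul]
  congr 1
  · funext e
    change ((φ : Gp z) : MulAut (FreeGroup ι)) (if e = d then a else 1) *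
      (if e ∈ J then γ φ else 1) = (if e ∈ J then γ φ else 1) * (if e = d then _ else 1)
    by_cases h : e = d
    · subst h
      rw [if_pos rfl, if_pos hd, if_pos rfl]
      group
    · rw [if_neg h, if_neg h, map_one, one_mul, mul_one]
  · funext e
    rw [map_one, mul_one, one_mul]
    rfl

end lam

/-! ### the automorphism Y -/

section yy

variable {ι δ : Type}

/-- homomorphisms out of F which agree on the factors of the free product -/
theorem fp_ext {A : Subgroup (FreeGroup ι)} {s : FreeGroup ι} (h : IsFP A s) {H : Type} [Group H]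
    {f g : FreeGroup ι →* H} (h1 : ∀ a ∈ A, f a = g a) (h2 : f s = g s) : f = g := by
  refine MonoidHom.eq_of_eqOn_dense h.gen ?_
  rintro x (hx | hx)
  · exact h1 x hx
  · rw [Set.mem_singleton_iff.1 hx]
    exact h2

/-- one half of Y -/
theorem exists_YH {A : Subgroup (FreeGroup ι)} {s : FreeGroup ι} (h : IsFP A s)
    (u : FreeGroup (ι ⊕ δ)) : ∃ Y : FreeGroup (ι ⊕ δ) →* FreeGroup (ι ⊕ δ),
      (∀ a ∈ A, Y (jn δ a) = jn δ a) ∧ Y (jn δ s) = u * jn δ s ∧
      ∀ d, Y (FreeGroup.of (Sum.inr d)) = FreeGroup.of (Sum.inr d) := by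
  obtain ⟨g, hg1, hg2⟩ := h.ext (FreeGroup (ι ⊕ δ)) ((jn δ).comp A.subtype) (u * jn δ s)
  let Y : FreeGroup (ι ⊕ δ) →* FreeGroup (ι ⊕ δ) :=
    FreeGroup.lift (Sum.elim (fun i => g (FreeGroup.of i)) fun d => FreeGroup.of (Sum.inr d))
  have h1 : Y.comp (jn δ) = g := fx fun i => by
    rw [MonoidHom.comp_apply, mof]
    exact FreeGroup.lift_apply_of
  have h2 : ∀ x, Y (jn δ x) = g x := fun x => DFunLike.congr_fun h1 x
  refine ⟨Y, fun a ha => ?_, ?_, fun d => ?_⟩
  · rw [h2]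
    exact hg1 ⟨a, ha⟩
  · rw [h2, hg2]
  · exact FreeGroup.lift_apply_of

/-- homomorphisms out of F⁺ -/
theorem fpp_ext {A : Subgroup (FreeGroup ι)} {s : FreeGroup ι} (h : IsFP A s) {H : Type} [Group H]
    {f g : FreeGroup (ι ⊕ δ) →* H} (h1 : ∀ a ∈ A, f (jn δ a) = g (jn δ a))
    (h2 : f (jn δ s) = g (jn δ s))
    (h3 : ∀ d, f (FreeGroup.of (Sum.inr d)) = g (FreeGroup.of (Sum.inr d))) : f = g := by
  have h4 : f.comp (jn δ) = g.comp (jn δ) := fp_ext h h1 h2
  refine fx fun x => ?_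
  rcases x with i | d
  · have h5 := DFunLike.congr_fun h4 (FreeGroup.of i)
    rw [MonoidHom.comp_apply, MonoidHom.comp_apply, mof] at h5
    exact h5
  · exact h3 d

/-- the properties of Y -/
structure IsY (A : Subgroup (FreeGroup ι)) (s : FreeGroup ι) (u : FreeGroup (ι ⊕ δ))
    (Y : MulAut (FreeGroup (ι ⊕ δ))) : Prop where
  fixA : ∀ a ∈ A, Y (jn δ a) = jn δ a
  onS : Y (jn δ s) = u * jn δ s
  fixT : ∀ d, Y (FreeGroup.of (Sum.inr d)) = FreeGroup.of (Sum.inr d)

theorem exists_Y {A : Subgroup (FreeGroup ι)} {s : FreeGroup ι} (h : IsFP A s)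
    (u : FreeGroup (ι ⊕ δ))
    (hu : ∀ Y : FreeGroup (ι ⊕ δ) →* FreeGroup (ι ⊕ δ),
      (∀ d, Y (FreeGroup.of (Sum.inr d)) = FreeGroup.of (Sum.inr d)) → Y u = u) :
    ∃ Y : MulAut (FreeGroup (ι ⊕ δ)), IsY A s u Y := by
  obtain ⟨Y, hY1, hY2, hY3⟩ := exists_YH h u
  obtain ⟨Z, hZ1, hZ2, hZ3⟩ := exists_YH h u⁻¹
  have h1 : Z.comp Y = MonoidHom.id _ := by
    refine fpp_ext h (fun a ha => ?_) ?_ fun d => ?_
    · rw [MonoidHom.comp_apply, hY1 a ha, hZ1 a ha]; rfl
    · rw [MonoidHom.comp_apply, hY2, map_mul, hZ2, hu Z hZ3, mul_inv_cancel_left]; rfl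
    · rw [MonoidHom.comp_apply, hY3, hZ3]; rfl
  have h2 : Y.comp Z = MonoidHom.id _ := by
    refine fpp_ext h (fun a ha => ?_) ?_ fun d => ?_
    · rw [MonoidHom.comp_apply, hZ1 a ha, hY1 a ha]; rfl
    · rw [MonoidHom.comp_apply, hZ2, map_mul, hY2, map_inv, hu Y hY3, inv_mul_cancel_left]; rfl
    · rw [MonoidHom.comp_apply, hZ3, hY3]; rfl
  exact ⟨MonoidHom.toMulEquiv Y Z h1 h2, hY1, hY2, hY3⟩

variable {A : Subgroup (FreeGroup ι)} {s : FreeGroup ι} {u : FreeGroup (ι ⊕ δ)}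
  {Y : MulAut (FreeGroup (ι ⊕ δ))}

theorem IsY.ifixA (hY : IsY A s u Y) {a : FreeGroup ι} (ha : a ∈ A) :
    Y⁻¹ (jn δ a) = jn δ a := by
  conv_lhs => rw [← hY.fixA a ha]
  exact MulAut.inv_apply_self _ _ _

theorem IsY.ifixT (hY : IsY A s u Y) (d : δ) :
    Y⁻¹ (FreeGroup.of (Sum.inr d)) = FreeGroup.of (Sum.inr d) := by
  conv_lhs => rw [← hY.fixT d]
  exact MulAut.inv_apply_self _ _ _

theorem IsY.ionS (hY : IsY A s u Y) (hu : Y u = u) : Y⁻¹ (jn δ s) = u⁻¹ * jn δ s := by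
  have h : Y (u⁻¹ * jn δ s) = jn δ s := by
    rw [map_mul, map_inv, hu, hY.onS, inv_mul_cancel_left]
  conv_lhs => rw [← h]
  exact MulAut.inv_apply_self _ _ _

variable {z : ι}

/-- Y lam Y⁻¹ acts trivially on the exponents of the letters different from z -/
theorem W_expo (hY : IsY A s u Y) (hz : FreeGroup.of z ∈ A) (d : δ) (y : ι ⊕ δ)
    (hy : y ≠ Sum.inl z) (g : FreeGroup (ι ⊕ δ)) :
    expo y ((Y * lam d (FreeGroup.of z) * Y⁻¹ : MulAut (FreeGroup (ι ⊕ δ))) g) = expo y g := by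
  classical
  have hez : expo y (jn δ (FreeGroup.of z)) = 1 := by
    rcases y with y | e
    · rw [expo_jn, expo, FreeGroup.lift_apply_of, if_neg]
      intro h; exact hy (by rw [h])
    · rw [expo_jn_inr]
  have h : (((expo y).comp Y.toMonoidHom).comp (lam d (FreeGroup.of z)).toMonoidHom) =
      (expo y).comp Y.toMonoidHom := by
    refine fx fun x => ?_
    rcases x with i | e
    · change expo y (Y (lam d (FreeGroup.of z) (FreeGroup.of (Sum.inl i)))) =
        expo y (Y (FreeGroup.of (Sum.inl i)))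
      rw [← mof (Sum.inl : ι → ι ⊕ δ) i, lam_jn]
    · change expo y (Y (lam d (FreeGroup.of z) (FreeGroup.of (Sum.inr e)))) =
        expo y (Y (FreeGroup.of (Sum.inr e)))
      rw [lam_t, map_mul, map_mul]
      by_cases he : e = d
      · rw [if_pos he, hY.fixA _ hz, hez, one_mul]
      · rw [if_neg he, map_one, map_one, map_one, one_mul]
  have h1 := DFunLike.congr_fun h (Y⁻¹ g)
  change expo y (Y (lam d (FreeGroup.of z) (Y⁻¹ g))) = expo y (Y (Y⁻¹ g)) at h1
  rw [MulAut.apply_inv_self] at h1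
  exact h1

open Classical in
/-- the effect of Y lam Y⁻¹ -/
theorem W_eff (hY : IsY A s u Y) (hz : FreeGroup.of z ∈ A) (d : δ) (g : FreeGroup (ι ⊕ δ)) :
    eff (Sum.inl z) (Y * lam d (FreeGroup.of z) * Y⁻¹ : MulAut (FreeGroup (ι ⊕ δ))) g =
      Multiplicative.toAdd (expo (Sum.inr d : ι ⊕ δ) (Y⁻¹ g)) := by
  have hez : expo (Sum.inl z : ι ⊕ δ) (jn δ (FreeGroup.of z)) = Multiplicative.ofAdd 1 := by
    rw [expo_jn, expo, FreeGroup.lift_apply_of, if_pos rfl]
  have h : (((expo (Sum.inl z)).comp Y.toMonoidHom).comp (lam d (FreeGroup.of z)).toMonoidHom) =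
      (expo (Sum.inr d)) * (expo (Sum.inl z)).comp Y.toMonoidHom := by
    refine fx fun x => ?_
    rcases x with i | e
    · change expo (Sum.inl z) (Y (lam d (FreeGroup.of z) (FreeGroup.of (Sum.inl i)))) =
        expo (Sum.inr d) (FreeGroup.of (Sum.inl i)) *
          expo (Sum.inl z) (Y (FreeGroup.of (Sum.inl i)))
      rw [← mof (Sum.inl : ι → ι ⊕ δ) i, lam_jn, expo_jn_inr, one_mul]
    · change expo (Sum.inl z) (Y (lam d (FreeGroup.of z) (FreeGroup.of (Sum.inr e)))) =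
        expo (Sum.inr d) (FreeGroup.of (Sum.inr e)) *
          expo (Sum.inl z) (Y (FreeGroup.of (Sum.inr e)))
      rw [lam_t, map_mul, map_mul]
      congr 1
      by_cases he : e = d
      · rw [if_pos he, hY.fixA _ hz, hez, he, expo, FreeGroup.lift_apply_of, if_pos rfl]
      · rw [if_neg he, map_one, map_one, map_one, expo, FreeGroup.lift_apply_of, if_neg]
        intro h; exact he (Sum.inr_injective h)
  have h1 := DFunLike.congr_fun h (Y⁻¹ g)
  change expo (Sum.inl z) (Y (lam d (FreeGroup.of z) (Y⁻¹ g))) =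
    expo (Sum.inr d) (Y⁻¹ g) * expo (Sum.inl z) (Y (Y⁻¹ g)) at h1
  rw [MulAut.apply_inv_self] at h1
  have h2 := congrArg Multiplicative.toAdd h1
  rw [toAdd_mul] at h2
  change Multiplicative.toAdd (expo (Sum.inl z) (Y (lam d (FreeGroup.of z) (Y⁻¹ g)))) -
    Multiplicative.toAdd (expo (Sum.inl z) g) = _
  omega

theorem W_fix (hY : IsY A s u Y) (hz : FreeGroup.of z ∈ A) (d : δ) (a : FreeGroup ι) :
    (Y * lam d a * Y⁻¹ : MulAut (FreeGroup (ι ⊕ δ))) (FreeGroup.of (Sum.inl z)) =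
      FreeGroup.of (Sum.inl z) := by
  change Y (lam d a (Y⁻¹ (FreeGroup.of (Sum.inl z)))) = _
  rw [← mof (Sum.inl : ι → ι ⊕ δ) z, hY.ifixA hz, lam_jn, hY.fixA _ hz]

theorem W_mem_Gp (hY : IsY A s u Y) (hz : FreeGroup.of z ∈ A) (d : δ) :
    (Y * lam d (FreeGroup.of z) * Y⁻¹ : MulAut (FreeGroup (ι ⊕ δ))) ∈ Gp (Sum.inl z : ι ⊕ δ) :=
  ⟨W_fix hY hz d _, fun y hy g => W_expo hY hz d y hy g⟩

theorem expo_inv_jn {D : Set (FreeGroup ι)} (h : IsFP (RSt D) s) (hY : IsY (RSt D) s u Y)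
    (hu : Y u = u) (hD : AI D) (hs : cl D s = 1) (d : δ)
    (hud : expo (Sum.inr d) u = Multiplicative.ofAdd 1) (x : FreeGroup ι) :
    Multiplicative.toAdd (expo (Sum.inr d : ι ⊕ δ) (Y⁻¹ (jn δ x))) = - cl D x := by
  have h1 : (expo (Sum.inr d)).comp ((Y⁻¹ : MulAut (FreeGroup (ι ⊕ δ))).toMonoidHom.comp (jn δ)) =
      (clH hD)⁻¹ := by
    refine fp_ext h (fun a ha => ?_) ?_
    · change expo (Sum.inr d) (Y⁻¹ (jn δ a)) = (Multiplicative.ofAdd (cl D a))⁻¹
      rw [hY.ifixA ha, expo_jn_inr, cl_rst ha]; rfl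
    · change expo (Sum.inr d) (Y⁻¹ (jn δ s)) = (Multiplicative.ofAdd (cl D s))⁻¹
      rw [hY.ionS hu, map_mul, map_inv, hud, expo_jn_inr, mul_one, hs]
  have h2 := congrArg Multiplicative.toAdd (DFunLike.congr_fun h1 x)
  exact h2

/-- the product of the new letters in J -/
noncomputable def uJ (ι : Type) (J : Finset δ) : FreeGroup (ι ⊕ δ) :=
  (J.toList.map fun d => FreeGroup.of (Sum.inr d)).prod

theorem uJ_fix (J : Finset δ) (Z : FreeGroup (ι ⊕ δ) →* FreeGroup (ι ⊕ δ))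
    (hZ : ∀ d, Z (FreeGroup.of (Sum.inr d)) = FreeGroup.of (Sum.inr d)) : Z (uJ ι J) = uJ ι J := by
  unfold uJ
  rw [map_list_prod, List.map_map]
  congr 2
  funext d
  exact hZ d

theorem uJ_expo (J : Finset δ) (d : δ) (hd : d ∈ J) :
    expo (Sum.inr d : ι ⊕ δ) (uJ ι J) = Multiplicative.ofAdd 1 := by
  classical
  unfold uJ
  rw [map_list_prod, List.map_map, Finset.prod_map_toList, Finset.prod_eq_single d]
  · change expo (Sum.inr d) (FreeGroup.of (Sum.inr d)) = _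
    rw [expo, FreeGroup.lift_apply_of, if_pos rfl]
  · intro e _ he
    change expo (Sum.inr d) (FreeGroup.of (Sum.inr e)) = _
    rw [expo, FreeGroup.lift_apply_of, if_neg]
    intro h; exact he (Sum.inr_injective h)
  · intro h; exact absurd hd h

variable {κ : Type} {E : κ → Set (FreeGroup ι)}

theorem iot_jn (γ : GS z E → FreeGroup ι) (J : Finset δ) (φ : GS z E) (x : FreeGroup ι) :
    iot γ J φ (jn δ x) = jn δ (((φ : Gp z) : MulAut (FreeGroup ι)) x) := psi_jn _ _ _ _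

open Classical in
theorem iot_t (γ : GS z E → FreeGroup ι) (J : Finset δ) (φ : GS z E) (d : δ) :
    iot γ J φ (FreeGroup.of (Sum.inr d)) = jn δ (if d ∈ J then γ φ else 1) *
      FreeGroup.of (Sum.inr d) * jn δ (if d ∈ J then (γ φ)⁻¹ else 1) := by
  unfold iot
  rw [psi_t]

theorem uJ_iot (γ : GS z E → FreeGroup ι) (J : Finset δ) (φ : GS z E) :
    iot γ J φ (uJ ι J) = jn δ (γ φ) * uJ ι J * (jn δ (γ φ))⁻¹ := by
  classical
  rw [← MulAut.conj_apply]
  unfold uJ
  rw [map_list_prod, map_list_prod, List.map_map, List.map_map]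
  congr 1
  refine List.map_congr_left fun d hd => ?_
  rw [Finset.mem_toList] at hd
  change iot γ J φ (FreeGroup.of (Sum.inr d)) = MulAut.conj (jn δ (γ φ)) (FreeGroup.of (Sum.inr d))
  rw [iot_t, if_pos hd, if_pos hd, MulAut.conj_apply, map_inv]

theorem comm_iot {D : Set (FreeGroup ι)} (h : IsFP (RSt D) s) (J : Finset δ)
    (hY : IsY (RSt D) s (uJ ι J) Y) {γ : GS z E → FreeGroup ι} (hγ : IsGam z E D s γ)
    (hD : D ∈ HS E) (φ : GS z E) : iot γ J φ * Y = Y * iot γ J φ := by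
  classical
  have hg : γ φ ∈ RSt D := A0_le_RSt hD (hγ.mem φ)
  have h1 : (iot γ J φ * Y).toMonoidHom = (Y * iot γ J φ).toMonoidHom := by
    refine fpp_ext h (fun a ha => ?_) ?_ fun d => ?_
    · change iot γ J φ (Y (jn δ a)) = Y (iot γ J φ (jn δ a))
      rw [hY.fixA a ha, iot_jn, hY.fixA _ (hγ.stD φ a ha)]
    · change iot γ J φ (Y (jn δ s)) = Y (iot γ J φ (jn δ s))
      have hb := hγ.sim φ
      obtain ⟨b, hb2⟩ : ∃ b, b = (γ φ * s)⁻¹ * ((φ : Gp z) : MulAut (FreeGroup ι)) s := ⟨_, rfl⟩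
      rw [← hb2] at hb
      have h2 : ((φ : Gp z) : MulAut (FreeGroup ι)) s = γ φ * s * b := by
        rw [hb2, mul_inv_cancel_left]
      rw [hY.onS, map_mul, uJ_iot, iot_jn, h2, map_mul, map_mul, map_mul, map_mul, hY.fixA _ hg,
        hY.onS, hY.fixA _ hb]
      group
    · change iot γ J φ (Y (FreeGroup.of (Sum.inr d))) = Y (iot γ J φ (FreeGroup.of (Sum.inr d)))
      rw [hY.fixT, iot_t, map_mul, map_mul, hY.fixT]
      have h3 : Y (jn δ (if d ∈ J then γ φ else 1)) = jn δ (if d ∈ J then γ φ else 1) := by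
        apply hY.fixA
        split_ifs
        · exact hg
        · exact one_mem _
      have h4 : Y (jn δ (if d ∈ J then (γ φ)⁻¹ else 1)) = jn δ (if d ∈ J then (γ φ)⁻¹ else 1) := by
        apply hY.fixA
        split_ifs
        · exact inv_mem hg
        · exact one_mem _
      rw [h3, h4]
  ext x
  exact DFunLike.congr_fun h1 x

/-- the commuting subgroups -/
def PW (z : ι) (E : κ → Set (FreeGroup ι)) (Y : MulAut (FreeGroup (ι ⊕ δ))) (d : δ) :
    Subgroup (GS (Sum.inl z) (plF δ E)) where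
  carrier := {w | ∃ a ∈ A0 E, (∀ y, y ≠ z → expo y a = 1) ∧
    (w.1.1 : MulAut (FreeGroup (ι ⊕ δ))) = Y * lam d a * Y⁻¹}
  one_mem' := ⟨1, one_mem _, fun y _ => map_one _, by
    rw [lam_one, mul_one, mul_inv_cancel]; rfl⟩
  mul_mem' := by
    rintro w w' ⟨a, ha, ha2, ha3⟩ ⟨a', ha', ha2', ha3'⟩
    refine ⟨a' * a, mul_mem ha' ha, fun y hy => by rw [map_mul, ha2 y hy, ha2' y hy, one_mul], ?_⟩
    change (w.1.1 : MulAut (FreeGroup (ι ⊕ δ))) * w'.1.1 = _
    rw [ha3, ha3', ← lam_mul]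
    group
  inv_mem' := by
    rintro w ⟨a, ha, ha2, ha3⟩
    refine ⟨a⁻¹, inv_mem ha, fun y hy => by rw [map_inv, ha2 y hy, inv_one], ?_⟩
    change (w.1.1 : MulAut (FreeGroup (ι ⊕ δ)))⁻¹ = _
    rw [ha3, ← lam_inv]
    group

end yy

/-! ### weights -/

section wts

variable {ι δ : Type} {R : Type} [CommRing R]

theorem wt_neg [Fintype ι] (χ : ι → Rˣ) (h : FreeGroup ι → ℤ) :
    wt χ (fun x => - h x) = (wt χ h)⁻¹ := by
  unfold wt
  rw [← Finset.prod_inv_distrib]
  refine Finset.prod_congr rfl fun x _ => ?_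
  rw [zpow_neg]

theorem wt_zero [Fintype ι] (χ : ι → Rˣ) (h : FreeGroup ι → ℤ) (h0 : ∀ x, h x = 0) :
    wt χ h = 1 := by
  unfold wt
  refine Finset.prod_eq_one fun x _ => ?_
  rw [h0, zpow_zero]

theorem unit_aux [IsLocalRing R] (a w : Rˣ) (ha : ¬ IsUnit ((a : R) - 1))
    (hw : IsUnit ((w : R) - 1)) : IsUnit (((a * w⁻¹ : Rˣ) : R) - 1) := by
  have h1 : IsUnit ((a : R) - w) := by
    by_contra h
    have h2 : -((a : R) - w) ∈ nonunits R := by
      intro h3
      exact h ((IsUnit.neg_iff _).1 h3)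
    have h3 := IsLocalRing.nonunits_add (show (a : R) - 1 ∈ nonunits R from ha) h2
    apply h3
    have h4 : (a : R) - 1 + -((a : R) - w) = (w : R) - 1 := by ring
    rw [h4]
    exact hw
  have h2 : ((a * w⁻¹ : Rˣ) : R) - 1 = ((a : R) - w) * ((w⁻¹ : Rˣ) : R) := by
    rw [sub_mul, Units.mul_inv, Units.val_mul]
  rw [h2]
  exact h1.mul (Units.isUnit _)

theorem unit_inv (w : Rˣ) (hw : IsUnit ((w : R) - 1)) : IsUnit (((w⁻¹ : Rˣ) : R) - 1) := by
  have h2 : ((w⁻¹ : Rˣ) : R) - 1 = - (((w : R) - 1) * ((w⁻¹ : Rˣ) : R)) := by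
    rw [sub_mul, Units.mul_inv]; ring
  rw [h2]
  exact (hw.mul (Units.isUnit _)).neg

variable [Fintype ι] {κ : Type} {E : κ → Set (FreeGroup ι)} {z : ι} {χ : ι → Rˣ}

theorem actv_HS (hE : IsSys z χ E) {D : Set (FreeGroup ι)} (hD : D ∈ HS E) :
    IsUnit ((wt χ (cl D) : R) - 1) := by
  obtain ⟨j, h, hD | hD⟩ := hD
  · have h1 : cl D = cl (E j) := by
      funext x; rw [hD, cl_smul]
    rw [h1]
    exact hE.act j
  · have h1 : cl D = fun x => - cl (E j) x := by
      funext x; rw [hD, cl_compl, cl_smul]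
    rw [h1, wt_neg]
    exact unit_inv _ (hE.act j)

theorem ai_HS {F : Type} [Group F] {κ : Type} {E : κ → Set F} (hE : ∀ j, AI (E j)) {D : Set F}
    (hD : D ∈ HS E) : AI D := by
  obtain ⟨j, h, hD | hD⟩ := hD
  · rw [hD]; exact ai_smul (hE j) h
  · rw [hD]; exact ai_compl (ai_smul (hE j) h)

theorem isFam_of_isSys [Nontrivial R] (hE : IsSys z χ E) : IsFam E := by
  refine ⟨hE.ai, hE.nest, fun j => ?_⟩
  by_contra h
  simp only [not_exists, not_not] at h
  have h1 := hE.act j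
  unfold Actv at h1
  rw [wt_zero χ _ h, Units.val_one, sub_self] at h1
  exact not_isUnit_zero h1

theorem zin_HS (hE : IsSys z χ E) : FreeGroup.of z ∈ A0 E := mem_A0.2 hE.zin

end wts

/-! ### the kill -/

theorem W_scalar {ι δ : Type} [Fintype ι] [Fintype δ] {R : Type} [CommRing R]
    (χ : ι ⊕ δ → Rˣ) {z : ι} {D : Set (FreeGroup ι)} {s : FreeGroup ι} {u : FreeGroup (ι ⊕ δ)}
    {Y : MulAut (FreeGroup (ι ⊕ δ))} (h : IsFP (RSt D) s) (hY : IsY (RSt D) s u Y)
    (hu : Y u = u) (hD : AI D) (hs : cl D s = 1) (hz : FreeGroup.of z ∈ RSt D) (d : δ)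
    (hud : expo (Sum.inr d) u = Multiplicative.ofAdd 1) :
    chr (Sum.inl z) χ ⟨Y * lam d (FreeGroup.of z) * Y⁻¹, W_mem_Gp hY hz d⟩ =
      χ (Sum.inr d) * (wt (fun i => χ (Sum.inl i)) (cl D))⁻¹ := by
  classical
  rw [chr_apply, Fintype.prod_sum_type, mul_comm, ← wt_neg]
  congr 1
  · rw [Finset.prod_eq_single d]
    · rw [W_eff hY hz, hY.ifixT, expo, FreeGroup.lift_apply_of, if_pos rfl]
      exact zpow_one _
    · intro e _ he
      rw [W_eff hY hz, hY.ifixT, expo, FreeGroup.lift_apply_of, if_neg]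
      · exact zpow_zero _
      · intro h; exact he (Sum.inr_injective h)
    · intro h; exact absurd (Finset.mem_univ _) h
  · unfold wt
    refine Finset.prod_congr rfl fun i _ => ?_
    rw [W_eff hY hz, ← mof (Sum.inl : ι → ι ⊕ δ) i, expo_inv_jn h hY hu hD hs d hud]

/-- **KLL.** -/
theorem kll (hH : HDS) (hSLD : SLD) (hSTR : STR) (hPLA : PLA) (hPLN : PLN) (hPLP : PLP)
    (hPLL : PLL) (hKAB : KAB) : KLL := by
  intro t R _ _ ι δ _ _ z χ κ _ _ E hE D s γ hleg hγ J hJ hχ iJ hiJ f hf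
  classical
  have hfam : IsFam E := isFam_of_isSys hE
  have hFP : IsFP (RSt D) s := hSTR (FreeGroup ι) κ E D s hfam hleg
  have hDAI : AI D := ai_HS hE.ai hleg.mem
  have hcs : cl D s = 1 := cl_leg hleg
  have hzA : FreeGroup.of z ∈ A0 E := zin_HS hE
  have hz : FreeGroup.of z ∈ RSt D := A0_le_RSt hleg.mem hzA
  obtain ⟨Y, hY⟩ := exists_Y hFP (uJ ι J) (fun Z hZ => uJ_fix J Z hZ)
  have hYu : Y (uJ ι J) = uJ ι J := uJ_fix J Y.toMonoidHom hY.fixT
  -- Y preserves the orbits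
  have hfamP : IsFam (plF δ E) := by
    refine ⟨fun j => (hPLA ι δ (E j) (hE.ai j)).1, fun i j g =>
      hPLN ι δ (E i) (E j) (fun g => hE.nest i j g) g, fun j => ?_⟩
    obtain ⟨x, hx⟩ := hfam.cls j
    exact ⟨jn δ x, by rw [(hPLA ι δ (E j) (hE.ai j)).2.1 x]; exact hx⟩
  have hlegP : IsLeg (plF δ E) (pl δ D) (jn δ s) := hPLL ι δ κ E D s hleg
  have htR : ∀ (C : Set (FreeGroup ι)) (d : δ),
      (FreeGroup.of (Sum.inr d) : FreeGroup (ι ⊕ δ)) ∈ RSt (pl δ C) := by
    intro C d y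
    change hd (y * FreeGroup.of (Sum.inr d)) ∈ C ↔ hd y ∈ C
    rw [(hH ι δ).new]
  have huA : uJ ι J ∈ A0 (plF δ E) := by
    unfold uJ
    refine list_prod_mem ?_
    intro x hx
    obtain ⟨d, _, rfl⟩ := List.mem_map.1 hx
    exact mem_A0.2 fun j => htR (E j) d
  have hYO : Y ∈ OrbS (plF δ E) := by
    refine hSLD (FreeGroup (ι ⊕ δ)) κ (plF δ E) (pl δ D) (jn δ s) hfamP hlegP (uJ ι J) huA Y
      ((jn δ '' (RSt D : Set (FreeGroup ι))) ∪ Set.range fun d : δ => FreeGroup.of (Sum.inr d))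
      ?_ ?_ ?_ hY.onS
    · rintro x (⟨a, ha, rfl⟩ | ⟨d, rfl⟩)
      · intro y
        change hd (y * jn δ a) ∈ D ↔ hd y ∈ D
        by_cases hy : y ∈ (jn δ).range
        · obtain ⟨x, rfl⟩ := hy
          rw [← map_mul, (hH ι δ).old, (hH ι δ).old]
          exact ha x
        · rw [(hH ι δ).right y a hy]
      · exact htR D d
    · rw [eq_top_iff, ← FreeGroup.closure_range_of, Subgroup.closure_le]
      rintro _ ⟨x, rfl⟩
      rcases x with i | d
      · have h1 : (⊤ : Subgroup (FreeGroup ι)) ≤ (Subgroup.closure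
            ((jn δ '' (RSt D : Set (FreeGroup ι))) ∪ (Set.range fun d : δ =>
              (FreeGroup.of (Sum.inr d) : FreeGroup (ι ⊕ δ))) ∪ {jn δ s})).comap (jn δ) := by
          rw [← hFP.gen, Subgroup.closure_le]
          rintro x (hx | hx)
          · exact Subgroup.subset_closure (Or.inl (Or.inl ⟨x, hx, rfl⟩))
          · rw [Set.mem_singleton_iff.1 hx]
            exact Subgroup.subset_closure (Or.inr rfl)
        have h2 := h1 (Subgroup.mem_top (FreeGroup.of i))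
        rw [Subgroup.mem_comap, mof] at h2
        exact h2
      · exact Subgroup.subset_closure (Or.inl (Or.inr ⟨d, rfl⟩))
    · rintro x (⟨a, ha, rfl⟩ | ⟨d, rfl⟩)
      · exact hY.fixA a ha
      · exact hY.fixT d
  have hlamO : ∀ d : δ, lam d (FreeGroup.of z) ∈ OrbS (plF δ E) := by
    intro d
    refine psi_mem_OrbS hH hPLP E 1 (fun j => ⟨1, by simp⟩) _ _ ?_ fun _ => one_mem _
    intro e
    split_ifs
    · exact hzA
    · exact one_mem _
  have hWO : ∀ d : δ, Y * lam d (FreeGroup.of z) * Y⁻¹ ∈ OrbS (plF δ E) := fun d =>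
    mul_mem (mul_mem hYO (hlamO d)) (inv_mem hYO)
  let ee : Fin J.card ≃ J := J.equivFin.symm
  refine hKAB R (GS z E) (GS (Sum.inl z) (plF δ E)) iJ J.card (fun j => PW z E Y (ee j : δ))
    ?_ ?_ (chG (Sum.inl z) χ (plF δ E)) ?_ _ f t hJ
  · -- commuting
    rintro j j' hjj w ⟨a, _, _, ha3⟩ w' ⟨a', _, _, ha3'⟩
    have hne : (ee j : δ) ≠ (ee j' : δ) := fun h => hjj (ee.injective (Subtype.ext h))
    apply Subtype.ext
    apply Subtype.ext
    change (w.1.1 : MulAut (FreeGroup (ι ⊕ δ))) * w'.1.1 = w'.1.1 * w.1.1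
    rw [ha3, ha3']
    have h1 := lam_comm (ι := ι) _ _ hne a a'
    calc Y * lam (ee j : δ) a * Y⁻¹ * (Y * lam (ee j' : δ) a' * Y⁻¹)
        = Y * (lam (ee j : δ) a * lam (ee j' : δ) a') * Y⁻¹ := by group
      _ = Y * (lam (ee j' : δ) a' * lam (ee j : δ) a) * Y⁻¹ := by rw [h1]
      _ = _ := by group
  · -- normalised
    rintro j g w ⟨a, ha, ha2, ha3⟩
    have hgA : γ g ∈ A0 E := hγ.mem g
    refine ⟨(γ g)⁻¹ * ((g : Gp z) : MulAut (FreeGroup ι)) a * γ g,
      mul_mem (mul_mem (inv_mem hgA) (hγ.stA g a ha)) hgA, ?_, ?_⟩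
    · intro y hy
      rw [map_mul, map_mul, map_inv, (g : Gp z).2.2 y hy, ha2 y hy, mul_one, inv_mul_cancel]
    · change (iJ g).1.1 * (w.1.1 : MulAut (FreeGroup (ι ⊕ δ))) * ((iJ g).1.1)⁻¹ = _
      rw [ha3, hiJ g]
      have h1 := comm_iot hFP J hY hγ hleg.mem g
      have h2 := iot_lam γ J g (ee j : δ) (ee j).2 a
      have h3 : iot γ J g * (Y * lam (ee j : δ) a * Y⁻¹) =
          Y * lam (ee j : δ) ((γ g)⁻¹ * ((g : Gp z) : MulAut (FreeGroup ι)) a * γ g) * Y⁻¹ *
            iot γ J g := by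
        have h4 : Y⁻¹ * iot γ J g = iot γ J g * Y⁻¹ := by
          rw [inv_mul_eq_iff_eq_mul, ← mul_assoc, ← h1, mul_assoc, mul_inv_cancel, mul_one]
        calc iot γ J g * (Y * lam (ee j : δ) a * Y⁻¹)
            = (iot γ J g * Y) * lam (ee j : δ) a * Y⁻¹ := by group
          _ = Y * (iot γ J g * lam (ee j : δ) a) * Y⁻¹ := by rw [h1]; group
          _ = Y * lam (ee j : δ) ((γ g)⁻¹ * ((g : Gp z) : MulAut (FreeGroup ι)) a * γ g) *
              (iot γ J g * Y⁻¹) := by rw [h2]; group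
          _ = _ := by rw [← h4]; group
      rw [h3]
      group
  · -- scalars
    intro j
    have hzR : ∀ y, y ≠ z → expo y (FreeGroup.of z) = 1 := by
      intro y hy
      rw [expo, FreeGroup.lift_apply_of, if_neg hy.symm]
    have hud : expo (Sum.inr (ee j : δ)) (uJ ι J) = Multiplicative.ofAdd 1 :=
      uJ_expo J _ (ee j).2
    refine ⟨⟨⟨Y * lam (ee j : δ) (FreeGroup.of z) * Y⁻¹, W_mem_Gp hY hz _⟩, hWO _⟩,
      ⟨FreeGroup.of z, hzA, hzR, rfl⟩,
      ((χ (Sum.inr (ee j : δ)) * (wt (fun i => χ (Sum.inl i)) (cl D))⁻¹ : Rˣ) : R), ?_, ?_⟩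
    · exact unit_aux _ _ (hχ _ (ee j).2) (actv_HS hE hleg.mem)
    · intro a
      rw [← W_scalar χ hFP hY hYu hDAI hcs hz _ hud]
      rfl

end Pool.Agent.TST.H81
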