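import Pool.Agent.Helper79_TOR.Stmts

/-! Module IOH of the T2-STAB block -/

set_option autoImplicit false

namespace Pool.Agent.TST.H81

open Pointwise Set CategoryTheory Rep Pool.Agent.TOR Pool.Agent.TOR.H58 Pool.Agent.TST

section cuts

variable {F : Type} [Group F] {κ : Type}

theorem mem_rst_smul {E : Set F} {g a : F} : a ∈ RSt (g • E) ↔ a ∈ RSt E := by
  rw [mem_RSt, mem_RSt]
  constructor
  · intro h y
    have h1 := h (g * y)
    rw [Set.mem_smul_set_iff_inv_smul_mem, Set.mem_smul_set_iff_inv_smul_mem, smul_eq_mul,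
      smul_eq_mul, mul_assoc, inv_mul_cancel_left, inv_mul_cancel_left] at h1
    exact h1
  · intro h y
    rw [Set.mem_smul_set_iff_inv_smul_mem, Set.mem_smul_set_iff_inv_smul_mem, smul_eq_mul,
      smul_eq_mul, ← mul_assoc]
    exact h _

theorem mem_rst_compl {E : Set F} {a : F} : a ∈ RSt Eᶜ ↔ a ∈ RSt E := by
  rw [mem_RSt, mem_RSt]
  exact ⟨fun h y => not_iff_not.1 (h y), fun h y => not_iff_not.2 (h y)⟩

theorem A0_le_RSt {E : κ → Set F} {D : Set F} (hD : D ∈ HS E) {a : F} (ha : a ∈ A0 E) :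
    a ∈ RSt D := by
  obtain ⟨j, h, hD | hD⟩ := hD
  · rw [hD, mem_rst_smul]
    exact mem_A0.1 ha j
  · rw [hD, mem_rst_compl, mem_rst_smul]
    exact mem_A0.1 ha j

/-- automorphisms preserving the orbits of a family -/
def OrbS (E : κ → Set F) : Subgroup (MulAut F) where
  carrier := {φ | ∀ j, ∃ g : F, φ '' E j = g • E j}
  one_mem' := fun j => ⟨1, by simp⟩
  mul_mem' := fun {a b} ha hb j => by
    obtain ⟨g, hg⟩ := ha j
    obtain ⟨h, hh⟩ := hb j
    refine ⟨a h * g, ?_⟩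
    have h1 : (a * b) '' E j = a '' (b '' E j) := by
      rw [← Set.image_comp]; rfl
    rw [h1, hh, mul_smul, ← hg]
    ext x
    simp only [Set.mem_image, Set.mem_smul_set, smul_eq_mul]
    constructor
    · rintro ⟨_, ⟨u, hu, rfl⟩, rfl⟩
      exact ⟨a u, ⟨u, hu, rfl⟩, by rw [map_mul]⟩
    · rintro ⟨_, ⟨u, hu, rfl⟩, rfl⟩
      exact ⟨h * u, ⟨u, hu, rfl⟩, by rw [map_mul]⟩
  inv_mem' := fun {a} ha j => by
    obtain ⟨g, hg⟩ := ha j
    refine ⟨a⁻¹ g⁻¹, ?_⟩
    have h0 : a '' (a⁻¹ g⁻¹ • E j) = E j := by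
      ext x
      simp only [Set.mem_image, Set.mem_smul_set, smul_eq_mul]
      constructor
      · rintro ⟨_, ⟨u, hu, rfl⟩, rfl⟩
        rw [map_mul, MulAut.apply_inv_self]
        have h2 : a u ∈ g • E j := by rw [← hg]; exact ⟨u, hu, rfl⟩
        rw [Set.mem_smul_set_iff_inv_smul_mem] at h2
        exact h2
      · intro hx
        have h2 : g * x ∈ a '' E j := by
          rw [hg]; exact Set.smul_mem_smul_set hx
        obtain ⟨u, hu, hu2⟩ := h2
        exact ⟨_, ⟨u, hu, rfl⟩, by rw [map_mul, MulAut.apply_inv_self, hu2, inv_mul_cancel_left]⟩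
    have h1 : (a⁻¹ : MulAut F) '' (a '' (a⁻¹ g⁻¹ • E j)) = a⁻¹ g⁻¹ • E j := by
      rw [← Set.image_comp]
      have h3 : (⇑(a⁻¹ : MulAut F) ∘ ⇑a) = id := by
        funext x; exact MulAut.inv_apply_self _ _ _
      rw [h3, Set.image_id]
    rw [h0] at h1
    exact h1

theorem mem_OrbS {E : κ → Set F} {φ : MulAut F} :
    φ ∈ OrbS E ↔ ∀ j, ∃ g : F, φ '' E j = g • E j := Iff.rfl

end cuts

variable {ι δ κ : Type}

theorem pl_smul (hH : IsHd (hd : FreeGroup (ι ⊕ δ) → FreeGroup ι)) (g : FreeGroup ι)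
    (E : Set (FreeGroup ι)) : pl δ (g • E) = jn δ g • pl δ E := by
  ext x
  rw [Set.mem_smul_set_iff_inv_smul_mem, smul_eq_mul, ← map_inv]
  change hd x ∈ g • E ↔ hd (jn δ g⁻¹ * x) ∈ E
  rw [hH.left, Set.mem_smul_set_iff_inv_smul_mem, smul_eq_mul]

theorem expo_jn (y : ι) (x : FreeGroup ι) :
    expo (Sum.inl y : ι ⊕ δ) (jn δ x) = expo y x :=
  expo_map (Function.Embedding.inl : ι ↪ ι ⊕ δ) y x

theorem expo_jn_inr (d : δ) (x : FreeGroup ι) :
    expo (Sum.inr d : ι ⊕ δ) (jn δ x) = 1 :=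
  expo_map_new (Function.Embedding.inl : ι ↪ ι ⊕ δ) (Sum.inr d) (fun i h => by
    cases h) x

theorem psi_mem_Gp (z : ι) (φ : MulAut (FreeGroup ι)) (hφ : φ ∈ Gp z) (a b : δ → FreeGroup ι)
    (hab : ∀ d y, y ≠ z → expo y (a d * b d) = 1) : psi φ a b ∈ Gp (Sum.inl z : ι ⊕ δ) := by
  refine ⟨?_, ?_⟩
  · rw [← mof (Sum.inl : ι → ι ⊕ δ) z, psi_jn, hφ.1]
  · intro y hy g
    have h : (expo y).comp (psi φ a b).toMonoidHom = expo y := by
      refine fx fun x => ?_
      rw [MonoidHom.comp_apply]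
      change expo y (psi φ a b (FreeGroup.of x)) = _
      rcases x with i | d
      · rw [← mof (Sum.inl : ι → ι ⊕ δ) i, psi_jn]
        rcases y with y | d
        · rw [expo_jn, expo_jn, hφ.2 y (fun h => hy (by rw [h]))]
        · rw [expo_jn_inr, expo_jn_inr]
      · rw [psi_t, map_mul, map_mul]
        rcases y with y | d'
        · rw [expo_jn, expo_jn, mul_right_comm, ← map_mul, hab d y (fun h => hy (by rw [h])),
            one_mul]
        · rw [expo_jn_inr, expo_jn_inr, one_mul, mul_one]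
    exact DFunLike.congr_fun h g

theorem psi_mem_OrbS (hH : HDS) (hP : PLP) (E : κ → Set (FreeGroup ι)) (φ : MulAut (FreeGroup ι))
    (hφ : ∀ j, ∃ g : FreeGroup ι, φ '' E j = g • E j) (a b : δ → FreeGroup ι)
    (ha : ∀ d, a d ∈ A0 E) (hb : ∀ d, b d ∈ A0 E) (j : κ) :
    ∃ g : FreeGroup (ι ⊕ δ), psi φ a b '' plF δ E j = g • plF δ E j := by
  obtain ⟨g, hg⟩ := hφ j
  refine ⟨jn δ g, ?_⟩
  change psi φ a b '' pl δ (E j) = _
  rw [hP ι δ (E j) φ a b (fun d => by rw [hg, mem_rst_smul]; exact mem_A0.1 (ha d) j)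
    (fun d => by rw [hg, mem_rst_smul]; exact mem_A0.1 (hb d) j), hg, pl_smul (hH ι δ)]

/-- **IOH.** -/
theorem ioh (hH : HDS) (hP : PLP) : IOH := by
  intro ι δ κ z E D s γ hγ
  refine ⟨?_, ?_⟩
  · intro J
    classical
    have hA : ∀ (φ : GS z E) (d : δ), (if d ∈ J then γ φ else 1) ∈ A0 E := by
      intro φ d
      split_ifs
      · exact hγ.mem φ
      · exact one_mem _
    have hB : ∀ (φ : GS z E) (d : δ), (if d ∈ J then (γ φ)⁻¹ else 1) ∈ A0 E := by
      intro φ d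
      split_ifs
      · exact inv_mem (hγ.mem φ)
      · exact one_mem _
    have h1 : ∀ φ : GS z E, iot γ J φ ∈ Gp (Sum.inl z : ι ⊕ δ) := by
      intro φ
      refine psi_mem_Gp z _ φ.1.2 _ _ ?_
      intro d y _
      by_cases hd : d ∈ J
      · rw [if_pos hd, if_pos hd, mul_inv_cancel, map_one]
      · rw [if_neg hd, if_neg hd, mul_one, map_one]
    have h2 : ∀ φ : GS z E, (⟨iot γ J φ, h1 φ⟩ : Gp (Sum.inl z : ι ⊕ δ)) ∈
        GS (Sum.inl z) (plF δ E) := by
      intro φ j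
      exact psi_mem_OrbS hH hP E _ φ.2 _ _ (hA φ) (hB φ) j
    have h3 : ∀ φ ψ : GS z E, iot γ J (φ * ψ) = iot γ J φ * iot γ J ψ := by
      intro φ ψ
      unfold iot
      rw [psi_mul]
      congr 1
      · funext d
        by_cases hd : d ∈ J
        · rw [if_pos hd, if_pos hd, if_pos hd, hγ.coc]
        · rw [if_neg hd, if_neg hd, if_neg hd, map_one, mul_one]
      · funext d
        by_cases hd : d ∈ J
        · rw [if_pos hd, if_pos hd, if_pos hd, hγ.coc, mul_inv_rev, map_inv]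
        · rw [if_neg hd, if_neg hd, if_neg hd, map_one, mul_one]
    refine ⟨MonoidHom.mk' (fun φ => ⟨⟨iot γ J φ, h1 φ⟩, h2 φ⟩) (fun φ ψ => ?_), fun φ => rfl⟩
    apply Subtype.ext
    apply Subtype.ext
    exact h3 φ ψ
  · intro a b ha hb hab
    have h1 : psi 1 a b ∈ Gp (Sum.inl z : ι ⊕ δ) := psi_mem_Gp z 1 (one_mem _) a b hab
    refine ⟨h1, ?_⟩
    intro j
    exact psi_mem_OrbS hH hP E 1 (fun j => ⟨1, by simp⟩) a b ha hb j

end Pool.Agent.TST.H81
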